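import Pool.Agent.H47C.Stm
import Pool.Agent.Y158.KL.Hil7

/-!
# Valuations on the cyclotomic field `ℚ(ζ_p)` (for project CUB)
-/

set_option autoImplicit false
set_option linter.unusedSectionVars false

namespace Pool.Agent.H95C

open NumberField IsDedekindDomain WithZero Polynomial Pool.Agent.Y158.KL

lemma one_of_pow {n : ℕ} (hn : n ≠ 0) {t : WithZero (Multiplicative ℤ)} (h : t ^ n = 1) : t = 1 := by
  have ht : t ≠ 0 := by
    rintro rfl
    rw [zero_pow hn] at h
    exact zero_ne_one h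
  obtain ⟨m, rfl⟩ := exists_exp ht
  rw [exp_pow, ← exp_zero, exp_inj] at h
  rcases mul_eq_zero.1 h with h | h
  · exact absurd (by exact_mod_cast h) hn
  · rw [h, exp_zero]

variable {p : ℕ} [hp : Fact p.Prime] {F : Type} [Field F] [NumberField F]
  [hF : IsCyclotomicExtension {p} ℚ F] {ζ : F} (hζ : IsPrimitiveRoot ζ p)

include hζ in
lemma fac (hodd : Odd p) (x : F) : x ^ p + 1 = ∏ z ∈ nthRootsFinset p (1 : F), (x + z) := by
  have h := hζ.pow_add_pow_eq_prod_add_mul x 1 hodd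
  simpa using h

omit hF in
lemma val_root (v : HeightOneSpectrum (𝓞 F)) {z : F} (hz : z ^ p = 1) : v.valuation F z = 1 := by
  have h := congrArg (v.valuation F) hz
  rw [map_pow, map_one] at h
  exact one_of_pow hp.out.ne_zero h

lemma val_diff (v : HeightOneSpectrum (𝓞 F)) {z w : F} (hz : z ^ p = 1) (hw : w ^ p = 1)
    (hne : z ≠ w) : v.valuation F (z - w) = v.intValuation (hζ.toInteger - 1) := by
  have hpz : NeZero p := ⟨hp.out.ne_zero⟩
  obtain ⟨i, -, rfl⟩ := hζ.eq_pow_of_pow_eq_one hz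
  obtain ⟨j, -, rfl⟩ := hζ.eq_pow_of_pow_eq_one hw
  have hne' : hζ.toInteger ^ i ≠ hζ.toInteger ^ j := by
    intro h
    apply hne
    have h1 := congrArg (algebraMap (𝓞 F) F) h
    rw [map_pow, map_pow] at h1
    exact h1
  rw [lam_assoc (v := v) (diff_assoc hζ hne'), ← v.valuation_of_algebraMap (K := F)]
  congr 1

lemma pi_unit {v : HeightOneSpectrum (𝓞 F)} (hv : ((p : ℕ) : 𝓞 F) ∉ v.asIdeal) :
    v.intValuation (hζ.toInteger - 1) = 1 := by
  rw [HeightOneSpectrum.intValuation_eq_one_iff]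
  intro h
  apply hv
  exact v.asIdeal.mem_of_dvd (ell_pi hζ) h

lemma eq_lam {P : HeightOneSpectrum (𝓞 F)} (hP : ((p : ℕ) : 𝓞 F) ∈ P.asIdeal) : P = lam hζ := by
  by_contra hne
  have h1 := other_pi hζ hne
  rw [HeightOneSpectrum.intValuation_eq_one_iff] at h1
  apply h1
  have h2 := (IsCyclotomicExtension.Rat.associated_zeta_sub_one_pow_prime p hζ).symm.dvd
  exact P.isPrime.mem_of_pow_mem _ (P.asIdeal.mem_of_dvd
    (IsCyclotomicExtension.Rat.associated_zeta_sub_one_pow_prime p hζ).symm.dvd hP)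

end Pool.Agent.H95C
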