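import Pool.Agent.H95C.KW2
import Pool.Agent.H47C.FinG
import Pool.Agent.H47C.RED1
import Pool.Agent.H47C.ROOT

/-!
# The first case for the exponents `3 p` over all quadratic fields

`c ^ 3 - 3 c t ^ p = 1` with `t` a unit at `p` gives a solution of Fermat's equation in the first case,
or the two equations `A ^ p - D ^ p = 3 ^ m B ^ p`, `f ^ p - D ^ (2 p) = 3 ^ (m + 1) (A B) ^ p` with
`A, B, D, f` prime to `p`; then `A ≡ -D`, `f ≡ -D ^ 2`, `8 D ^ 2 ≡ 0` modulo `p`.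
-/

set_option autoImplicit false
set_option linter.all false

namespace Pool.Agent.H95C

open NumberField IsDedekindDomain Pool.Agent.H47T Pool.Agent.H47C
open Pool.Agent.Y546.WQ (val_one int_notMem)

theorem unit_split {p : ℕ} (hpZ : Prime (p : ℤ)) {U V r s : ℤ} (hUV : IsCoprime U V)
    (hr : ¬ (p : ℤ) ∣ r) (hs : ¬ (p : ℤ) ∣ s) (h : r ^ p * V = U * s ^ p) :
    ¬ (p : ℤ) ∣ U ∧ ¬ (p : ℤ) ∣ V := by
  have h1 : (p : ℤ) ∣ U → (p : ℤ) ∣ V := by
    intro hU
    have h2 : (p : ℤ) ∣ r ^ p * V := by rw [h]; exact hU.mul_right _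
    exact (hpZ.dvd_or_dvd h2).resolve_left fun h3 => hr (hpZ.dvd_of_dvd_pow h3)
  have h2 : (p : ℤ) ∣ V → (p : ℤ) ∣ U := by
    intro hV
    have h2 : (p : ℤ) ∣ U * s ^ p := by rw [← h]; exact hV.mul_left _
    exact (hpZ.dvd_or_dvd h2).resolve_right fun h3 => hs (hpZ.dvd_of_dvd_pow h3)
  exact ⟨fun hU => hpZ.not_unit (hUV.isUnit_of_dvd' hU (h1 hU)),
    fun hV => hpZ.not_unit (hUV.isUnit_of_dvd' (h2 hV) hV)⟩

open RED3 in
/-- the reduction, with the second equation -/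
theorem red3U (p : ℕ) (hpp : p.Prime) (hp5 : 5 ≤ p) (c t : ℚ) (ht0 : t ≠ 0)
    (htn : ¬ (p : ℤ) ∣ t.num) (htd : ¬ (p : ℤ) ∣ t.den)
    (h : c ^ 3 - 3 * c * t ^ p = 1) :
    (∃ a b d : ℤ, IsCoprime a b ∧ ¬ (p : ℤ) ∣ a ∧ ¬ (p : ℤ) ∣ b ∧ ¬ (p : ℤ) ∣ d ∧
      a ^ p + b ^ p = d ^ p) ∨
    (∃ (A B D f : ℤ) (m : ℕ), p = 2 * m + 1 ∧ ¬ (p : ℤ) ∣ A ∧ ¬ (p : ℤ) ∣ B ∧ ¬ (p : ℤ) ∣ D ∧
      ¬ (p : ℤ) ∣ f ∧ IsCoprime A D ∧
      IsCoprime f D ∧ A ^ p + (-D) ^ p = 3 ^ m * B ^ p ∧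
      f ^ p + (-D ^ 2) ^ p = 3 ^ (m + 1) * (A * B) ^ p) := by
  have hpZ : Prime (p : ℤ) := Nat.prime_iff_prime_int.1 hpp
  have hodd : Odd p := hpp.odd_of_ne_two (by omega)
  obtain ⟨m, hm⟩ := hodd
  have hodd : Odd p := ⟨m, hm⟩
  have hp0 : p ≠ 0 := by omega
  have hc0 : c ≠ 0 := by
    rintro rfl
    norm_num at h
  obtain ⟨a, ha⟩ : ∃ a : ℤ, a = c.num := ⟨_, rfl⟩
  obtain ⟨b, hb⟩ : ∃ b : ℤ, b = (c.den : ℤ) := ⟨_, rfl⟩
  obtain ⟨r, hr⟩ : ∃ r : ℤ, r = t.num := ⟨_, rfl⟩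
  obtain ⟨s, hs⟩ : ∃ s : ℤ, s = (t.den : ℤ) := ⟨_, rfl⟩
  have ha0 : a ≠ 0 := by rw [ha]; exact Rat.num_ne_zero.2 hc0
  have hb0 : b ≠ 0 := by rw [hb]; exact_mod_cast c.den_nz
  have hr0 : r ≠ 0 := by rw [hr]; exact Rat.num_ne_zero.2 ht0
  have hs0 : s ≠ 0 := by rw [hs]; exact_mod_cast t.den_nz
  have hab : IsCoprime a b := by
    rw [ha, hb, Int.isCoprime_iff_gcd_eq_one]
    exact c.reduced
  have hrs : IsCoprime r s := by
    rw [hr, hs, Int.isCoprime_iff_gcd_eq_one]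
    exact t.reduced
  have hcab : c = (a : ℚ) / (b : ℚ) := by
    rw [ha, hb]
    exact (Rat.num_div_den c).symm
  have htrs : t = (r : ℚ) / (s : ℚ) := by
    rw [hr, hs]
    exact (Rat.num_div_den t).symm
  have hbQ : (b : ℚ) ≠ 0 := by exact_mod_cast hb0
  have hsQ : (s : ℚ) ≠ 0 := by exact_mod_cast hs0
  have e1 : r ^ p * (3 * a * b ^ 2) = (a ^ 3 - b ^ 3) * s ^ p := by
    have h1 : (r : ℚ) ^ p * (3 * a * b ^ 2) = (a ^ 3 - b ^ 3) * s ^ p := by
      rw [hcab, htrs, div_pow, div_pow] at h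
      have hsp : (s : ℚ) ^ p ≠ 0 := pow_ne_zero _ hsQ
      field_simp at h
      linear_combination (-1 : ℚ) * h
    exact_mod_cast h1
  have hab' : a - b ≠ 0 := by
    intro h0
    have h1 : a = b := sub_eq_zero.1 h0
    rw [h1, sub_self, zero_mul] at e1
    have : r ^ p * (3 * b * b ^ 2) ≠ 0 :=
      mul_ne_zero (pow_ne_zero _ hr0) (mul_ne_zero (mul_ne_zero (by norm_num) hb0)
        (pow_ne_zero _ hb0))
    exact this e1
  have h3p : Prime (3 : ℤ) := Int.prime_three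
  have cop3 : ∀ {z : ℤ}, ¬ (3 : ℤ) ∣ z → IsCoprime z 3 := fun hz =>
    ((h3p.coprime_iff_not_dvd).2 hz).symm
  have cab1 : IsCoprime (a - b) a := by
    have : IsCoprime (-b + 1 * a) a := (IsCoprime.add_mul_right_left_iff).2 (hab.symm.neg_left)
    have e : -b + 1 * a = a - b := by ring
    rwa [e] at this
  have cab2 : IsCoprime (a - b) b := by
    have : IsCoprime (a + (-1) * b) b := (IsCoprime.add_mul_right_left_iff).2 hab
    have e : a + (-1) * b = a - b := by ring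
    rwa [e] at this
  have cq1 : IsCoprime (a ^ 2 + a * b + b ^ 2) a := by
    have : IsCoprime (b ^ 2 + (a + b) * a) a :=
      (IsCoprime.add_mul_right_left_iff).2 (hab.symm.pow_left)
    have e : b ^ 2 + (a + b) * a = a ^ 2 + a * b + b ^ 2 := by ring
    rwa [e] at this
  have cq2 : IsCoprime (a ^ 2 + a * b + b ^ 2) b := by
    have : IsCoprime (a ^ 2 + (a + b) * b) b :=
      (IsCoprime.add_mul_right_left_iff).2 (hab.pow_left)
    have e : a ^ 2 + (a + b) * b = a ^ 2 + a * b + b ^ 2 := by ring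
    rwa [e] at this
  by_cases h3 : (3 : ℤ) ∣ a - b
  · left
    have h3a : ¬ (3 : ℤ) ∣ a := by
      intro h1
      exact h3p.not_unit (cab1.isUnit_of_dvd' h3 h1)
    have h3b : ¬ (3 : ℤ) ∣ b := by
      intro h1
      exact h3p.not_unit (cab2.isUnit_of_dvd' h3 h1)
    obtain ⟨w, hw⟩ := h3
    obtain ⟨q, hq⟩ : ∃ q : ℤ, a ^ 2 + a * b + b ^ 2 = 3 * q := by
      refine ⟨3 * w ^ 2 + a * b, ?_⟩
      have : a ^ 2 + a * b + b ^ 2 = (a - b) ^ 2 + 3 * (a * b) := by ring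
      rw [this, hw]
      ring
    have hq' : q = 3 * w ^ 2 + a * b := by
      have : a ^ 2 + a * b + b ^ 2 = (a - b) ^ 2 + 3 * (a * b) := by ring
      rw [this, hw] at hq
      linarith
    have h3q : ¬ (3 : ℤ) ∣ q := by
      intro h1
      rw [hq'] at h1
      have h2 : (3 : ℤ) ∣ a * b := by
        have := (Int.dvd_add_right (Dvd.intro (w ^ 2) rfl)).1 h1
        exact this
      rcases h3p.dvd_or_dvd h2 with h2 | h2
      · exact h3a h2
      · exact h3b h2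
    have hqa : IsCoprime q a := by
      rw [hq] at cq1
      exact cq1.of_mul_left_right
    have hqb : IsCoprime q b := by
      rw [hq] at cq2
      exact cq2.of_mul_left_right
    have e2 : r ^ p * (a * b ^ 2) = ((a - b) * q) * s ^ p := by
      have h1 : a ^ 3 - b ^ 3 = (a - b) * (3 * q) := by
        rw [← hq]
        ring
      rw [h1] at e1
      have : (3 : ℤ) * (r ^ p * (a * b ^ 2)) = 3 * (((a - b) * q) * s ^ p) := by
        linear_combination e1
      exact mul_left_cancel₀ (by norm_num) this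
    have hUV : IsCoprime ((a - b) * q) (a * b ^ 2) :=
      IsCoprime.mul_left (cab1.mul_right cab2.pow_right) (hqa.mul_right hqb.pow_right)
    obtain ⟨hpU, hpV⟩ := unit_split hpZ hUV (by rw [hr]; exact htn) (by rw [hs]; exact htd) e2
    obtain ⟨⟨r', hr'⟩, ⟨s', hs'⟩⟩ := split_pow hodd hUV hrs e2
    obtain ⟨⟨α, hα⟩, ⟨γ, hγ⟩⟩ := Int.eq_pow_of_mul_eq_pow_odd (hab.pow_right) hodd hs'
    obtain ⟨β, hβ⟩ : ∃ β : ℤ, b = β ^ p := by
      rw [hm] at hγ ⊢
      exact sq_pow hγ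
    have hcq : IsCoprime (a - b) q := by
      have h1 : IsCoprime q (3 * (a * b)) :=
        IsCoprime.mul_right (cop3 h3q) (hqa.mul_right hqb)
      -- q = 3 w^2 + a b, a - b = 3 w
      have h2 : IsCoprime (a - b) 3 ∨ True := Or.inr trivial
      have h3 : IsCoprime w q := by
        have h4 : IsCoprime w (a * b) := by
          have h5 : IsCoprime (3 * w) (a * b) := by
            rw [← hw]
            exact cab1.mul_right cab2
          exact h5.of_mul_left_right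
        rw [hq']
        have h6 : IsCoprime w (a * b + (3 * w) * w) :=
          (IsCoprime.add_mul_right_right_iff).2 h4
        have e : a * b + (3 * w) * w = 3 * w ^ 2 + a * b := by ring
        rwa [e] at h6
      rw [hw]
      exact IsCoprime.mul_left (cop3 h3q).symm h3
    obtain ⟨⟨d, hd⟩, _⟩ := Int.eq_pow_of_mul_eq_pow_odd hcq hodd hr'
    have hα0 : α ≠ 0 := by
      rintro rfl
      rw [zero_pow hp0] at hα
      exact ha0 hα
    have hβ0 : β ≠ 0 := by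
      rintro rfl
      rw [zero_pow hp0] at hβ
      exact hb0 hβ
    have hd0 : d ≠ 0 := by
      rintro rfl
      rw [zero_pow hp0] at hd
      exact hab' hd
    have hαβ : IsCoprime α β := by
      have h4 : IsCoprime (α ^ p) (β ^ p) := by
        rw [← hα, ← hβ]
        exact hab
      exact (IsCoprime.pow_iff (by omega) (by omega)).1 h4
    refine ⟨α, -β, d, hαβ.neg_right, ?_, ?_, ?_, ?_⟩
    · intro h1
      apply hpV
      rw [hα]
      exact (dvd_pow h1 hp0).mul_right _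
    · intro h1
      apply hpV
      have h2 := (dvd_neg).1 h1
      rw [hβ]
      exact (dvd_pow (dvd_pow h2 hp0) two_ne_zero).mul_left _
    · intro h1
      apply hpU
      rw [hd]
      exact (dvd_pow h1 hp0).mul_right _
    rw [hodd.neg_pow, ← hα, ← hβ, ← hd]
    ring
  · have hU3 : ¬ (3 : ℤ) ∣ a ^ 3 - b ^ 3 := by
      intro h1
      apply h3
      have h2 : (3 : ℤ) ∣ (a - b) ^ 3 := by
        have e : (a - b) ^ 3 = a ^ 3 - b ^ 3 + 3 * (a * b ^ 2 - a ^ 2 * b) := by ring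
        rw [e]
        exact dvd_add h1 (Dvd.intro _ rfl)
      exact h3p.dvd_of_dvd_pow h2
    have e3 : a ^ 3 - b ^ 3 = (a - b) * (a ^ 2 + a * b + b ^ 2) := by ring
    have hUV : IsCoprime (a ^ 3 - b ^ 3) (3 * a * b ^ 2) := by
      refine IsCoprime.mul_right (IsCoprime.mul_right (cop3 hU3) ?_) (IsCoprime.pow_right ?_)
      · rw [e3]
        exact IsCoprime.mul_left cab1 cq1
      · rw [e3]
        exact IsCoprime.mul_left cab2 cq2
    obtain ⟨hpU, hpV⟩ := unit_split hpZ hUV (by rw [hr]; exact htn) (by rw [hs]; exact htd) e1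
    obtain ⟨⟨r', hr'⟩, ⟨s', hs'⟩⟩ := split_pow hodd hUV hrs e1
    have hcq : IsCoprime (a - b) (a ^ 2 + a * b + b ^ 2) := by
      have h4 : IsCoprime (a - b) (3 * (a * b)) :=
        IsCoprime.mul_right (cop3 h3) (cab1.mul_right cab2)
      have h6 : IsCoprime (a - b) (3 * (a * b) + (a - b) * (a - b)) :=
        (IsCoprime.add_mul_right_right_iff).2 h4
      have e : 3 * (a * b) + (a - b) * (a - b) = a ^ 2 + a * b + b ^ 2 := by ring
      rwa [e] at h6
    rw [e3] at hr'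
    obtain ⟨⟨d, hd⟩, ⟨f, hf⟩⟩ := Int.eq_pow_of_mul_eq_pow_odd hcq hodd hr'
    have hd0 : d ≠ 0 := by
      rintro rfl
      rw [zero_pow hp0] at hd
      exact hab' hd
    have hf0 : f ≠ 0 := by
      rintro rfl
      rw [zero_pow hp0] at hf
      have h1 : 0 < a ^ 2 := by positivity
      nlinarith [sq_nonneg (a + 2 * b)]
    have hpd : ¬ (p : ℤ) ∣ d := by
      intro h1
      apply hpU
      rw [e3, hd]
      exact (dvd_pow h1 hp0).mul_right _
    have hpf : ¬ (p : ℤ) ∣ f := by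
      intro h1
      apply hpU
      rw [e3, hf]
      exact (dvd_pow h1 hp0).mul_left _
    have hpa : ¬ (p : ℤ) ∣ a := fun h1 => hpV ((h1.mul_left _).mul_right _)
    have hpb : ¬ (p : ℤ) ∣ b := fun h1 => hpV ((dvd_pow h1 two_ne_zero).mul_left _)
    have hfd : IsCoprime f d := by
      have h1 : IsCoprime (f ^ p) (d ^ p) := by
        rw [← hf, ← hd]
        exact hcq.symm
      exact (IsCoprime.pow_iff (by omega) (by omega)).1 h1
    have hfe : f ^ p = (d ^ 2) ^ p + 3 * (a * b) := by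
      rw [← hf, ← pow_mul, mul_comm 2 p, pow_mul, ← hd]
      ring
    have h3s : (3 : ℤ) ∣ s' := by
      have : (3 : ℤ) ∣ s' ^ p := ⟨a * b ^ 2, by rw [← hs']; ring⟩
      exact h3p.dvd_of_dvd_pow this
    have h3ab : (3 : ℤ) ∣ a * b ^ 2 := by
      obtain ⟨s1, hs1⟩ := h3s
      have h4 : (3 : ℤ) * (a * b ^ 2) = 3 * (3 * (3 ^ (p - 2) * s1 ^ p)) := by
        have h5 : (3 : ℤ) ^ p = 3 * (3 * 3 ^ (p - 2)) := by
          rw [← pow_succ', ← pow_succ']
          congr 1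
          omega
        have h6 : 3 * (a * b ^ 2) = 3 * a * b ^ 2 := by ring
        rw [h6, hs', hs1, mul_pow, h5]
        ring
      exact ⟨3 ^ (p - 2) * s1 ^ p, mul_left_cancel₀ (by norm_num) h4⟩
    have hpow3 : ∀ z : ℤ, (3 : ℤ) * z = 3 * z := fun z => rfl
    rcases h3p.dvd_or_dvd h3ab with h3a | h3b'
    · -- 3 divides a
      have h3b : ¬ (3 : ℤ) ∣ b := fun h1 => h3p.not_unit (hab.isUnit_of_dvd' h3a h1)
      have hc1 : IsCoprime (3 * a) (b ^ 2) :=
        IsCoprime.pow_right (IsCoprime.mul_left (cop3 h3b).symm hab)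
      obtain ⟨⟨α, hα⟩, ⟨γ, hγ⟩⟩ := Int.eq_pow_of_mul_eq_pow_odd hc1 hodd hs'
      obtain ⟨β, hβ⟩ : ∃ β : ℤ, b = β ^ p := by
        rw [hm] at hγ ⊢
        exact sq_pow hγ
      have h3α : (3 : ℤ) ∣ α := h3p.dvd_of_dvd_pow ⟨a, hα.symm⟩
      obtain ⟨α1, hα1⟩ := h3α
      have haα : a = 3 ^ (p - 1) * α1 ^ p := by
        have h4 : (3 : ℤ) * a = 3 * (3 ^ (p - 1) * α1 ^ p) := by
          have h5 : (3 : ℤ) ^ p = 3 * 3 ^ (p - 1) := by
            rw [← pow_succ']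
            congr 1
            omega
          rw [hα, hα1, mul_pow, h5]
          ring
        exact mul_left_cancel₀ (by norm_num) h4
      have hα0 : α1 ≠ 0 := by
        rintro rfl
        rw [zero_pow hp0, mul_zero] at haα
        exact ha0 haα
      have hβ0 : β ≠ 0 := by
        rintro rfl
        rw [zero_pow hp0] at hβ
        exact hb0 hβ
      left
      have hdα : IsCoprime d α := by
        have h4 : IsCoprime (d ^ p) (α ^ p) := by
          rw [← hα, ← hd]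
          exact (cop3 h3).mul_right cab1
        exact (IsCoprime.pow_iff (by omega) (by omega)).1 h4
      have hdβ : IsCoprime d β := by
        have h4 : IsCoprime (d ^ p) (β ^ p) := by
          rw [← hβ, ← hd]
          exact cab2
        exact (IsCoprime.pow_iff (by omega) (by omega)).1 h4
      refine ⟨d ^ 2, α * β, f, (hdα.mul_right hdβ).pow_left, ?_, ?_, hpf, ?_⟩
      · intro h1
        exact hpd (hpZ.dvd_of_dvd_pow h1)
      · intro h1
        rcases hpZ.dvd_or_dvd h1 with h2 | h2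
        · have h4 : (p : ℤ) ∣ 3 * a := by
            rw [hα]
            exact dvd_pow h2 hp0
          exact hpV (h4.mul_right _)
        · apply hpb
          rw [hβ]
          exact dvd_pow h2 hp0
      · rw [hfe, mul_pow, ← hα, ← hβ]
        ring
    · -- 3 divides b
      have h3b : (3 : ℤ) ∣ b := h3p.dvd_of_dvd_pow h3b'
      have h3a : ¬ (3 : ℤ) ∣ a := fun h1 => h3p.not_unit (hab.isUnit_of_dvd' h1 h3b)
      have hc1 : IsCoprime a (3 * b ^ 2) :=
        IsCoprime.mul_right (cop3 h3a) hab.pow_right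
      have hs'' : a * (3 * b ^ 2) = s' ^ p := by rw [← hs']; ring
      obtain ⟨⟨α, hα⟩, ⟨γ, hγ⟩⟩ := Int.eq_pow_of_mul_eq_pow_odd hc1 hodd hs''
      have h3γ : (3 : ℤ) ∣ γ := h3p.dvd_of_dvd_pow ⟨b ^ 2, hγ.symm⟩
      obtain ⟨γ1, hγ1⟩ := h3γ
      have hb2 : b ^ 2 = (3 ^ m) ^ 2 * γ1 ^ p := by
        have h4 : (3 : ℤ) * b ^ 2 = 3 * ((3 ^ m) ^ 2 * γ1 ^ p) := by
          have h5 : (3 : ℤ) ^ p = 3 * (3 ^ m) ^ 2 := by
            rw [hm]
            ring
          rw [hγ, hγ1, mul_pow, h5]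
          ring
        exact mul_left_cancel₀ (by norm_num) h4
      have h3m : (3 : ℤ) ^ m ∣ b := (Int.pow_dvd_pow_iff two_ne_zero).1 ⟨_, hb2⟩
      obtain ⟨b1, hb1⟩ := h3m
      have hb1' : b1 ^ 2 = γ1 ^ p := by
        rw [hb1, mul_pow] at hb2
        exact mul_left_cancel₀ (pow_ne_zero _ (pow_ne_zero _ (by norm_num))) hb2
      obtain ⟨β, hβ⟩ : ∃ β : ℤ, b1 = β ^ p := by
        rw [hm] at hb1' ⊢
        exact sq_pow hb1'
      have hα0 : α ≠ 0 := by
        rintro rfl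
        rw [zero_pow hp0] at hα
        exact ha0 hα
      have hβ0 : β ≠ 0 := by
        rintro rfl
        rw [zero_pow hp0] at hβ
        rw [hβ, mul_zero] at hb1
        exact hb0 hb1
      right
      refine ⟨α, β, d, f, m, hm, ?_, ?_, hpd, hpf, ?_, hfd, ?_, ?_⟩
      · intro h1
        apply hpa
        rw [hα]
        exact dvd_pow h1 hp0
      · intro h1
        apply hpb
        rw [hb1, hβ]
        exact (dvd_pow h1 hp0).mul_left _
      · have h4 : IsCoprime (α ^ p) (d ^ p) := by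
          rw [← hα, ← hd]
          exact cab1.symm
        exact (IsCoprime.pow_iff (by omega) (by omega)).1 h4
      · rw [hodd.neg_pow, ← hα, ← hd, ← hβ, ← hb1]
        ring
      · have h5 : (-d ^ 2) ^ p = -(d ^ 2) ^ p := hodd.neg_pow _
        rw [h5, hfe, mul_pow, ← hα, ← hβ]
        rw [hb1]
        ring


/-- the two equations with `p`-units -/
theorem noU {p : ℕ} [Fact p.Prime] (h5 : 5 ≤ p) (hW : W4 p) {A B D f : ℤ} {m : ℕ}
    (hm : p = 2 * m + 1) (pA : ¬ (p : ℤ) ∣ A) (pB : ¬ (p : ℤ) ∣ B) (pD : ¬ (p : ℤ) ∣ D)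
    (pf : ¬ (p : ℤ) ∣ f) (hAD : IsCoprime A D) (hfD : IsCoprime f D)
    (e1 : A ^ p + (-D) ^ p = 3 ^ m * B ^ p)
    (e2 : f ^ p + (-D ^ 2) ^ p = 3 ^ (m + 1) * (A * B) ^ p) : False := by
  have hp : p.Prime := Fact.out
  have hodd : Odd p := hp.odd_of_ne_two (by omega)
  have hpp := Nat.prime_iff_prime_int.1 hp
  have pAB : ¬ (p : ℤ) ∣ A * B := by
    intro h
    rcases hpp.dvd_or_dvd h with h | h
    · exact pA h
    · exact pB h
  have pD2 : ¬ (p : ℤ) ∣ -D ^ 2 := by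
    intro h
    exact pD (hpp.dvd_of_dvd_pow ((dvd_neg).1 h))
  have k1 := kw h5 hW m hAD.neg_right pA (fun h => pD ((dvd_neg).1 h)) e1 pB
  have k2 := kw h5 hW (m + 1) (hfD.pow_right).neg_right pf pD2 e2 pAB
  -- modulo `p`
  have e3 : f ^ p = (D ^ 2) ^ p + 3 * A ^ p * (A ^ p - D ^ p) := by
    rw [hodd.neg_pow] at e1 e2
    rw [mul_pow, pow_succ] at e2
    linear_combination e2 - 3 * A ^ p * e1
  have key : (p : ℤ) ∣ f - (D ^ 2 + 3 * A * (A - D)) := by
    rw [← ZMod.intCast_eq_intCast_iff_dvd_sub, eq_comm]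
    have h1 := congrArg (fun z : ℤ => (z : ZMod p)) e3
    push_cast at h1
    simp only [ZMod.pow_card] at h1
    rw [h1]
    push_cast
    have h2 : ((D : ZMod p) ^ 2) ^ p = (D : ZMod p) ^ 2 := ZMod.pow_card _
    first
      | rfl
      | (rw [h2])
  have hfin : (p : ℤ) ∣ 8 * D ^ 2 := by
    have h1 : (8 : ℤ) * D ^ 2 = (f - -D ^ 2) - (f - (D ^ 2 + 3 * A * (A - D))) -
        (3 * A - 6 * D) * (A - -D) := by ring
    rw [h1]
    exact dvd_sub (dvd_sub k2 key) (k1.mul_left _)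
  rcases hpp.dvd_or_dvd hfin with h | h
  · have h8 : p ∣ 2 ^ 3 := by exact_mod_cast h
    have := Nat.le_of_dvd (by norm_num) (hp.dvd_of_dvd_pow h8)
    omega
  · exact pD (hpp.dvd_of_dvd_pow h)


/-- a rational number which is a unit at a prime above `p` -/
theorem rat_unit {K : Type} [Field K] [NumberField K] {p : ℕ} (hp : p.Prime)
    (v : HeightOneSpectrum (𝓞 K)) (hv : ((p : ℕ) : 𝓞 K) ∈ v.asIdeal) {t : ℚ}
    (h : v.valuation K (algebraMap ℚ K t) = 1) : ¬ (p : ℤ) ∣ t.num ∧ ¬ (p : ℤ) ∣ t.den := by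
  have hpZ := Nat.prime_iff_prime_int.1 hp
  have ht0 : t ≠ 0 := by
    rintro rfl
    rw [map_zero, map_zero] at h
    exact zero_ne_one h
  have h1 : v.valuation K ((t.num : ℤ) : K) = v.valuation K ((t.den : ℤ) : K) := by
    have h2 : ((t.num : ℤ) : K) = algebraMap ℚ K t * ((t.den : ℤ) : K) := by
      have h3 : (t.num : ℚ) = t * t.den := (Rat.mul_den_eq_num t).symm
      have h4 := congrArg (algebraMap ℚ K) h3
      rw [map_mul] at h4
      simpa using h4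
    rw [h2, map_mul, h, one_mul]
  have hlt : ∀ n : ℤ, (p : ℤ) ∣ n → v.valuation K (n : K) < 1 := by
    rintro n ⟨k, rfl⟩
    have h2 : ((p * k : ℤ) : 𝓞 K) ∈ v.asIdeal := by
      push_cast
      exact v.asIdeal.mul_mem_right _ hv
    have h3 := (v.valuation_lt_one_iff_mem (K := K) _).2 h2
    simpa using h3
  have hunit : ∀ n : ℤ, ¬ (p : ℤ) ∣ n → v.valuation K (n : K) = 1 := by
    intro n hn
    have h2 := val_one v (n : 𝓞 K) (int_notMem v.asIdeal v.isPrime p hp hv n hn)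
    simpa using h2
  have hred : ¬ ((p : ℤ) ∣ t.num ∧ (p : ℤ) ∣ t.den) := by
    rintro ⟨h2, h3⟩
    have h4 : IsCoprime t.num (t.den : ℤ) := Int.isCoprime_iff_gcd_eq_one.2 t.reduced
    exact hpZ.not_unit (h4.isUnit_of_dvd' h2 h3)
  constructor
  · intro h2
    by_cases h3 : (p : ℤ) ∣ t.den
    · exact hred ⟨h2, h3⟩
    · have h4 := hlt _ h2
      rw [h1, hunit _ h3] at h4
      exact lt_irrefl _ h4
  · intro h3
    by_cases h2 : (p : ℤ) ∣ t.num
    · exact hred ⟨h2, h3⟩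
    · have h4 := hlt _ h3
      rw [← h1, hunit _ h2] at h4
      exact lt_irrefl _ h4

/-- the case `α ^ p + β ^ p ∈ ℚ` -/
theorem noABU (hROOT : S_ROOT) {K : Type} [Field K] [NumberField K]
    (hK : Module.finrank ℚ K = 2) {p : ℕ} [Fact p.Prime] (h5 : 5 ≤ p) (hW : W4 p)
    (v : HeightOneSpectrum (𝓞 K)) (hv : ((p : ℕ) : 𝓞 K) ∈ v.asIdeal)
    {α β : K} (hα : v.valuation K α = 1) (hβ : v.valuation K β = 1)
    (h : α ^ (3 * p) + β ^ (3 * p) = 1) {c : ℚ} (hc : α ^ p + β ^ p = algebraMap ℚ K c) : False := by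
  have hp : p.Prime := Fact.out
  have h1 : (α ^ p) ^ 3 + (β ^ p) ^ 3 = 1 := by
    rw [← pow_mul, ← pow_mul, mul_comm p 3, h]
  have h2 : (algebraMap ℚ K c) ^ 3 - 3 * algebraMap ℚ K c * (α * β) ^ p = 1 := by
    rw [← hc, mul_pow]
    linear_combination h1
  have hc0 : c ≠ 0 := by
    rintro rfl
    rw [map_zero] at h2
    simp at h2
  have hcK : algebraMap ℚ K c ≠ 0 := (map_ne_zero _).2 hc0
  have h3 : (α * β) ^ p = algebraMap ℚ K ((c ^ 3 - 1) / (3 * c)) := by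
    rw [map_div₀, map_sub, map_pow, map_one, map_mul, map_ofNat (algebraMap ℚ K) 3]
    rw [eq_div_iff (mul_ne_zero three_ne_zero hcK)]
    linear_combination -h2
  obtain ⟨t, ht⟩ := hROOT K hK p hp h5 _ _ h3
  have hvt : v.valuation K (algebraMap ℚ K t) = 1 := by
    rw [← ht, map_mul, hα, hβ, one_mul]
  have ht0 : t ≠ 0 := by
    rintro rfl
    rw [map_zero, map_zero] at hvt
    exact zero_ne_one hvt
  obtain ⟨u1, u2⟩ := rat_unit hp v hv hvt
  have h4 : c ^ 3 - 3 * c * t ^ p = 1 := by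
    apply (algebraMap ℚ K).injective
    rw [map_sub, map_mul, map_mul, map_pow, map_pow, map_one, map_ofNat (algebraMap ℚ K) 3, ← ht, h2]
  rcases red3U p hp h5 c t ht0 u1 u2 h4 with ⟨a, b, d, hab, ha, hb, hd, h6⟩ |
    ⟨A, B, D, f, m, h6, h7, h8, h9, h10, h11, h12, h13, h14⟩
  · exact flt1 h5 hW hab ha hb h6 hd
  · exact noU h5 hW h6 h7 h8 h9 h10 h11 h12 h13 h14

/-- **The first case for the exponents divisible by `3 p` over all quadratic fields.** -/
theorem firstCase3 (p : ℕ) (hp : p.Prime) (h5 : 5 ≤ p) (hW : W4 p) (K : Type) [Field K]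
    [NumberField K] (hK : Module.finrank ℚ K = 2) (n : ℕ) (hn : 3 * p ∣ n) (x y z : K)
    (hx : x ≠ 0) (hy : y ≠ 0) (hz : z ≠ 0) (h : x ^ n + y ^ n = z ^ n)
    (v : HeightOneSpectrum (𝓞 K)) (hv : ((p : ℕ) : 𝓞 K) ∈ v.asIdeal) :
    ¬ (v.valuation K x = v.valuation K y ∧ v.valuation K y = v.valuation K z) := by
  haveI : Fact p.Prime := ⟨hp⟩
  obtain ⟨k, rfl⟩ := hn
  rintro ⟨hxy, hyz⟩
  obtain ⟨X, hX⟩ : ∃ X : K, X = x ^ k := ⟨_, rfl⟩
  obtain ⟨Y, hY⟩ : ∃ Y : K, Y = y ^ k := ⟨_, rfl⟩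
  obtain ⟨Z, hZ⟩ : ∃ Z : K, Z = z ^ k := ⟨_, rfl⟩
  have hx' : X ≠ 0 := hX ▸ pow_ne_zero _ hx
  have hy' : Y ≠ 0 := hY ▸ pow_ne_zero _ hy
  have hz' : Z ≠ 0 := hZ ▸ pow_ne_zero _ hz
  have h' : X ^ (3 * p) + Y ^ (3 * p) = Z ^ (3 * p) := by
    rw [hX, hY, hZ, ← pow_mul, ← pow_mul, ← pow_mul, mul_comm k]
    exact h
  have vxz : v.valuation K X = v.valuation K Z := by
    rw [hX, hZ, map_pow, map_pow, hxy, hyz]
  have vyz : v.valuation K Y = v.valuation K Z := by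
    rw [hY, hZ, map_pow, map_pow, hyz]
  have vne : ∀ w : K, w ≠ 0 → v.valuation K w ≠ 0 := fun w hw => (Valuation.ne_zero_iff _).2 hw
  have vdiv : ∀ a b : K, a ≠ 0 → b ≠ 0 → v.valuation K a = v.valuation K b →
      v.valuation K (a / b) = 1 := by
    intro a b ha hb hab
    rw [map_div₀, hab, div_self (vne b hb)]
  have hodd : Odd p := hp.odd_of_ne_two (by omega)
  have hodd3 : Odd (3 * p) := Odd.mul (by decide) hodd
  have hu : (X / Z) ^ p ≠ 0 := pow_ne_zero _ (div_ne_zero hx' hz')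
  have hw : (Y / Z) ^ p ≠ 0 := pow_ne_zero _ (div_ne_zero hy' hz')
  have h1 : (X / Z) ^ (3 * p) + (Y / Z) ^ (3 * p) = 1 := by
    rw [div_pow, div_pow, ← add_div, h', div_self (pow_ne_zero _ hz')]
  have h2 : ((X / Z) ^ p) ^ 3 + ((Y / Z) ^ p) ^ 3 = 1 := by
    rw [← pow_mul, ← pow_mul, mul_comm p 3, h1]
  rcases mainRED1 K hK _ _ hu hw h2 with ⟨c, hc⟩ | ⟨c, hc⟩ | ⟨c, hc⟩
  · exact noABU mainROOT hK h5 hW v hv (vdiv _ _ hx' hz' vxz) (vdiv _ _ hy' hz' vyz) h1 hc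
  · refine noABU mainROOT hK h5 hW v hv (α := Z / X) (β := -Y / X)
      (vdiv _ _ hz' hx' vxz.symm)
      (vdiv _ _ (neg_ne_zero.2 hy') hx' (by rw [Valuation.map_neg, vyz, vxz])) (c := c) ?_ ?_
    · rw [div_pow, div_pow, hodd3.neg_pow, ← add_div, ← h', div_eq_one_iff_eq (pow_ne_zero _ hx')]
      ring
    · have h3 : X ^ p ≠ 0 := pow_ne_zero _ hx'
      have h4 : Z ^ p ≠ 0 := pow_ne_zero _ hz'
      rw [div_pow, div_pow] at hc
      rw [div_pow, div_pow, hodd.neg_pow, ← add_div, div_eq_iff h3]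
      field_simp at hc
      linear_combination hc
  · refine noABU mainROOT hK h5 hW v hv (α := Z / Y) (β := -X / Y)
      (vdiv _ _ hz' hy' vyz.symm)
      (vdiv _ _ (neg_ne_zero.2 hx') hy' (by rw [Valuation.map_neg, vyz, vxz])) (c := c) ?_ ?_
    · rw [div_pow, div_pow, hodd3.neg_pow, ← add_div, ← h', div_eq_one_iff_eq (pow_ne_zero _ hy')]
      ring
    · have h3 : Y ^ p ≠ 0 := pow_ne_zero _ hy'
      have h4 : Z ^ p ≠ 0 := pow_ne_zero _ hz'
      rw [div_pow, div_pow] at hc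
      rw [div_pow, div_pow, hodd.neg_pow, ← add_div, div_eq_iff h3]
      field_simp at hc
      linear_combination hc

end Pool.Agent.H95C
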