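import Pool.Agent.H47C.VALQ
import Pool.Agent.H95F.Key
import Pool.Agent.H95F.Loc
import Pool.Agent.Y546.WQ.All

/-!
# The congruence of Kummer, Wieferich, Mirimanoff, Eichler for `a ^ p + b ^ p = 3 ^ e d ^ p`
-/

set_option autoImplicit false
set_option linter.all false

namespace Pool.Agent.H95C

open NumberField IsDedekindDomain Pool.Agent.H47T Pool.Agent.H47C Pool.Agent.H47C.VQ74

/-- VALQ for all `e` -/
theorem valqG {p : ℕ} [Fact p.Prime] (h5 : 5 ≤ p) {F : Type} [Field F] [NumberField F] {ζ : F}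
    (hζ : IsPrimitiveRoot ζ p) {a b d : ℤ} (e : ℕ) (hd : d ≠ 0)
    (hab : IsCoprime a b) (heq : a ^ p + b ^ p = 3 ^ e * d ^ p) (hpd : ¬ (p : ℤ) ∣ d) :
    EvL p ((a : F) + (b : F) * ζ) := by
  classical
  intro v
  have hpp : p.Prime := Fact.out
  have hp1 : 1 < p := hpp.one_lt
  have hodd : Odd p := hpp.odd_of_ne_two (by omega)
  have hζ1 : v.valuation F ζ = 1 := val_root v (by omega) hζ.pow_eq_one
  have heqF : (a : F) ^ p + (b : F) ^ p = 3 ^ e * (d : F) ^ p := by
    exact_mod_cast congrArg (fun t : ℤ => (t : F)) heq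
  have hle : v.valuation F ((a : F) + (b : F) * ζ) ≤ 1 := by
    refine Valuation.map_add_le _ (val_int v a) ?_
    rw [map_mul, hζ1, mul_one]
    exact val_int v b
  rcases hle.eq_or_lt with h1 | hlt
  · exact ⟨0, by rw [h1, mul_zero, WithZero.exp_zero]⟩
  -- `b` is a unit at `v`
  have hb1 : v.valuation F (b : F) = 1 := by
    refine (val_int v b).antisymm (not_lt.1 fun hb1 => ?_)
    refine coprime_val v hab ?_ hb1
    have h2 : (a : F) = ((a : F) + (b : F) * ζ) - (b : F) * ζ := by ring
    rw [h2]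
    refine Valuation.map_sub_lt _ hlt ?_
    rw [map_mul, hζ1, mul_one]
    exact hb1
  -- if `1 - ζ` is not a unit then `a + b` is not
  have hab1 : v.valuation F (1 - ζ) < 1 → v.valuation F ((a : F) + b) < 1 := by
    intro h
    have h2 : (a : F) + b = ((a : F) + (b : F) * ζ) + (b : F) * (1 - ζ) := by ring
    rw [h2]
    refine Valuation.map_add_lt _ hlt ?_
    rw [map_mul, hb1, one_mul]
    exact h
  -- `p` is a unit
  have hvp : ¬ v.valuation F (p : F) < 1 := by
    intro hvp
    have h2 : v.valuation F (1 - ζ) < 1 := by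
      have h3 : v.valuation F ((1 - ζ) ^ p) < 1 := by
        obtain ⟨ζ', hζ'⟩ : ∃ ζ' : 𝓞 F, (ζ' : F) = ζ := ⟨hζ.toInteger, rfl⟩
        obtain ⟨r, hr⟩ := exists_add_pow_prime_eq hpp (1 : 𝓞 F) (-ζ')
        have h4 := congrArg (fun t : 𝓞 F => (t : F)) hr
        simp only [map_add, map_mul, map_pow, map_neg, map_one, map_natCast, hζ', hodd.neg_pow,
          hζ.pow_eq_one, one_pow] at h4
        have h5' : (1 - ζ) ^ p = p * (-ζ * (r : F)) := by
          rw [sub_eq_add_neg, h4]
          ring
        rw [h5', map_mul]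
        refine mul_lt_one_of_lt_of_le hvp ?_
        have h6 := v.valuation_le_one (K := F) (-ζ' * r)
        simpa [hζ'] using h6
      rw [map_pow] at h3
      by_contra h5
      exact absurd h3 (not_lt.2 (one_le_pow₀ (not_lt.1 h5)))
    have h3 := hab1 h2
    obtain ⟨k, hk⟩ := hodd.add_dvd_pow_add_pow a b
    have h4 : v.valuation F (((a ^ p + b ^ p : ℤ)) : F) < 1 := by
      rw [hk]
      push_cast
      rw [map_mul]
      exact mul_lt_one_of_lt_of_le h3 (val_int v k)
    have h5' : (p : ℤ) ∣ a ^ p + b ^ p := by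
      by_contra hnd
      have h6 : IsCoprime (p : ℤ) (a ^ p + b ^ p) :=
        (Int.isCoprime_iff_gcd_eq_one.2 ((Nat.Prime.coprime_iff_not_dvd hpp).2
          (by rwa [← Int.natCast_dvd])))
      exact coprime_val v h6 (by simpa using hvp) h4
    rw [heq] at h5'
    have hpZ : Prime (p : ℤ) := Nat.prime_iff_prime_int.1 hpp
    rcases hpZ.dvd_or_dvd h5' with h6 | h6
    · have h7 := hpZ.dvd_of_dvd_pow h6
      have h8 : p ∣ 3 := by exact_mod_cast h7
      have := Nat.le_of_dvd (by norm_num) h8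
      omega
    · exact hpd (hpZ.dvd_of_dvd_pow h6)
  have hζp : ∀ η : F, IsPrimitiveRoot η p → v.valuation F (1 - η) = 1 := by
    intro η hη
    have h1 : v.valuation F (1 - η) ≤ 1 := by
      refine Valuation.map_sub_le _ (by rw [map_one]) ?_
      rw [val_root v (by omega) hη.pow_eq_one]
    exact h1.antisymm (not_lt.1 fun h2 => hvp (val_p v hp1 hη h2))
  -- the power of `3` is a unit
  have hv3 : v.valuation F (3 : F) ^ e = 1 := by
    rcases Nat.eq_zero_or_pos e with he0 | he
    · rw [he0, pow_zero]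
    have hv3 : v.valuation F (3 : F) = 1 := by
      have h0 : v.valuation F ((3 : ℤ) : F) ≤ 1 := val_int v 3
      push_cast at h0
      refine h0.antisymm (not_lt.1 fun h3 => ?_)
      have h4 : (3 : ℤ) ∣ a + b := by
        have h5' : (3 : ℤ) ∣ a ^ p + b ^ p := by
          rw [heq]
          exact Dvd.dvd.mul_right (dvd_pow_self _ (by omega)) _
        have h6 : ∀ t : ZMod 3, t ^ p = t := by
          intro t
          obtain ⟨k, hk⟩ := hodd
          rw [hk, pow_succ, pow_mul]
          have h7 : ∀ t : ZMod 3, (t ^ 2) ^ k * t = t := by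
            intro t
            have h8 : t = 0 ∨ t ^ 2 = 1 := by revert t; decide
            rcases h8 with h8 | h8
            · rw [h8, mul_zero]
            · rw [h8, one_pow, one_mul]
          exact h7 t
        have h7 := (ZMod.intCast_zmod_eq_zero_iff_dvd (a ^ p + b ^ p) 3).2 (by exact_mod_cast h5')
        push_cast at h7
        rw [h6, h6] at h7
        have h8 := (ZMod.intCast_zmod_eq_zero_iff_dvd (a + b) 3).1 (by push_cast; exact h7)
        exact_mod_cast h8
      obtain ⟨k, hk⟩ := h4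
      have h5' : v.valuation F ((a : F) + b) < 1 := by
        have h6 : (a : F) + b = 3 * (k : F) := by exact_mod_cast congrArg (fun t : ℤ => (t : F)) hk
        rw [h6, map_mul]
        exact mul_lt_one_of_lt_of_le h3 (val_int v k)
      have h6 : (b : F) * (1 - ζ) = ((a : F) + b) - ((a : F) + (b : F) * ζ) := by ring
      have h7 : v.valuation F ((b : F) * (1 - ζ)) < 1 := by
        rw [h6]
        exact Valuation.map_sub_lt _ h5' hlt
      rw [map_mul, hb1, one_mul, hζp ζ hζ] at h7
      exact lt_irrefl _ h7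
    rw [hv3, one_pow]
  -- the product
  have hprod := hζ.pow_add_pow_eq_prod_add_mul (a : F) (b : F) hodd
  have hmem : ζ ∈ Polynomial.nthRootsFinset p (1 : F) := by
    rw [Polynomial.mem_nthRootsFinset (by omega)]
    exact hζ.pow_eq_one
  have hval : v.valuation F ((a : F) ^ p + (b : F) ^ p) =
      v.valuation F ((a : F) + (b : F) * ζ) := by
    rw [hprod, map_prod, Finset.prod_eq_single ζ]
    · rw [mul_comm ζ]
    · intro η hη hne
      rw [Polynomial.mem_nthRootsFinset (by omega)] at hη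
      have hζ0 : ζ ≠ 0 := hζ.ne_zero (by omega)
      have h1 : IsPrimitiveRoot (η / ζ) p := by
        rw [IsPrimitiveRoot.iff_orderOf]
        refine orderOf_eq_prime ?_ ?_
        · rw [div_pow, hη, hζ.pow_eq_one, div_one]
        · rw [Ne, div_eq_one_iff_eq hζ0]
          exact hne
      have h2 : v.valuation F ((a : F) + η * b) ≤ 1 := by
        refine Valuation.map_add_le _ (val_int v a) ?_
        rw [map_mul, val_root v (by omega) hη, one_mul]
        exact val_int v b
      refine h2.antisymm (not_lt.1 fun h3 => ?_)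
      have h4 : (b : F) * (ζ * (1 - η / ζ)) = ((a : F) + (b : F) * ζ) - ((a : F) + η * b) := by
        field_simp
        ring
      have h5' : v.valuation F ((b : F) * (ζ * (1 - η / ζ))) < 1 := by
        rw [h4]
        exact Valuation.map_sub_lt _ hlt h3
      rw [map_mul, map_mul, hb1, hζ1, hζp _ h1, one_mul, one_mul] at h5'
      exact lt_irrefl _ h5'
    · intro h
      exact absurd hmem h
  rw [heqF, map_mul, map_pow, map_pow, hv3, one_mul] at hval
  have hd0 : v.valuation F (d : F) ≠ 0 := by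
    rw [Valuation.ne_zero_iff]
    exact_mod_cast hd
  obtain ⟨m, hm⟩ : ∃ m : ℤ, v.valuation F (d : F) = WithZero.exp m :=
    ⟨WithZero.log (v.valuation F (d : F)), (WithZero.exp_log hd0).symm⟩
  refine ⟨m, ?_⟩
  rw [← hval, hm, ← WithZero.exp_nsmul, nsmul_eq_mul]



open Pool.Agent.Y546.WQ Pool.Agent.H95F Polynomial

section

variable {p : ℕ} [Fact p.Prime] {E : Type} [Field E] [NumberField E]

/-- `a + b T` and its value -/
theorem lin_facts (c : Cyc p E) (a b : ℤ) :
    (Polynomial.C a + X * Polynomial.C b).eval 1 = a + b ∧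
    (derivative (Polynomial.C a + X * Polynomial.C b)).eval 1 = b ∧
    aeval c.z (Polynomial.C a + X * Polynomial.C b) = (a : E) + b * c.z := by
  refine ⟨by simp, by simp, ?_⟩
  simp [mul_comm]

theorem lin_ne (c : Cyc p E) (h5 : 5 ≤ p) {a b : ℤ} (hb : ¬ (p : ℤ) ∣ b) :
    (a : E) + b * c.z ≠ 0 := by
  have hpp : p.Prime := Fact.out
  intro h
  have hb0 : b ≠ 0 := fun h0 => hb (h0 ▸ dvd_zero _)
  have hbE : (b : E) ≠ 0 := by exact_mod_cast hb0
  have h1 : c.z = ((-a / b : ℚ) : E) := by
    push_cast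
    rw [eq_div_iff hbE]
    linear_combination h
  -- a rational number whose `p`-th power is one
  have h2 : (-a / b : ℚ) ^ p = 1 := by
    have h3 := c.prim.pow_eq_one
    rw [h1] at h3
    exact_mod_cast h3
  have hodd : Odd p := hpp.odd_of_ne_two (by omega)
  have h4 : (-a / b : ℚ) = 1 := hodd.strictMono_pow.injective (by simpa using h2)
  rw [h4, Rat.cast_one] at h1
  exact c.prim.ne_one hpp.one_lt h1

/-- the relation with an auxiliary prime -/
theorem kwL (c : Cyc p E) (h5 : 5 ≤ p) {a b : ℤ} (hab : IsCoprime a b) (ha : ¬ (p : ℤ) ∣ a)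
    (hb : ¬ (p : ℤ) ∣ b) (hs : ¬ (p : ℤ) ∣ a + b) (hE : EvL p ((a : E) + b * c.z))
    {l : ℕ} (hl : l.Prime) (hlp : l ≠ p) (hW : ¬ p ^ 2 ∣ l ^ (p - 1) - 1)
    (hlab : (l : ℤ) ∣ a ∨ (l : ℤ) ∣ b ∨ (l : ℤ) ∣ a + b ∨ (l : ℤ) ∣ a - b) : (p : ℤ) ∣ a - b := by
  have hpp : p.Prime := Fact.out
  have hp2 : p ≠ 2 := by omega
  have hodd : Odd p := hpp.odd_of_ne_two hp2
  obtain ⟨f1, f2, f3⟩ := lin_facts c a b
  obtain ⟨w, hwz, hw⟩ := exists_zint c
  have hwu : IsUnit w := IsUnit.of_pow_eq_one hw.pow_eq_one hpp.ne_zero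
  have hpm : ∀ P : Ideal (𝓞 E), P.IsPrime → ((l : ℕ) : 𝓞 E) ∈ P → ((p : ℕ) : 𝓞 E) ∉ P := by
    intro P hP hlP hpP
    have h1 := int_notMem P hP l hl hlP (p : ℤ) (fun h => hlp ((Nat.prime_dvd_prime_iff_eq hl hpp).1
      (by exact_mod_cast h)))
    exact h1 (by exact_mod_cast hpP)
  have hdv : ∀ P : Ideal (𝓞 E), ((l : ℕ) : 𝓞 E) ∈ P → ∀ n : ℤ, (l : ℤ) ∣ n → (n : 𝓞 E) ∈ P := by
    rintro P hlP n ⟨k, rfl⟩
    push_cast
    exact P.mul_mem_right _ hlP
  have hcop : ∀ P : Ideal (𝓞 E), P.IsPrime → (a : 𝓞 E) ∈ P → (b : 𝓞 E) ∈ P → False := by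
    intro P hP h1 h2
    obtain ⟨u, v, huv⟩ := hab
    apply one_notMem P hP
    have h3 : (1 : 𝓞 E) = (u : 𝓞 E) * a + (v : 𝓞 E) * b := by exact_mod_cast huv.symm
    rw [h3]
    exact P.add_mem (P.mul_mem_left _ h1) (P.mul_mem_left _ h2)
  have hPm : ∀ P : Ideal (𝓞 E), P.IsPrime → ((l : ℕ) : 𝓞 E) ∈ P →
      (a : 𝓞 E) + b * w ∉ P := by
    intro P hP hlP hm
    have hwP : w ∉ P := fun h => hP.ne_top (Ideal.eq_top_of_isUnit_mem _ h hwu)
    rcases hlab with h | h | h | h
    · have h1 := hdv P hlP a h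
      have h2 := P.sub_mem hm h1
      have e : (a : 𝓞 E) + b * w - a = b * w := by ring
      rw [e] at h2
      exact hcop P hP h1 ((hP.mem_or_mem h2).resolve_right hwP)
    · have h1 := hdv P hlP b h
      have h2 := P.sub_mem hm (P.mul_mem_right w h1)
      have e : (a : 𝓞 E) + b * w - b * w = a := by ring
      rw [e] at h2
      exact hcop P hP h2 h1
    · have h1 := hdv P hlP _ h
      have h2 := P.sub_mem h1 hm
      have e : ((a + b : ℤ) : 𝓞 E) - ((a : 𝓞 E) + b * w) = b * (1 - w) := by push_cast; ring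
      rw [e] at h2
      rcases hP.mem_or_mem h2 with h3 | h3
      · refine hcop P hP ?_ h3
        have h4 := P.sub_mem h1 h3
        have e : ((a + b : ℤ) : 𝓞 E) - b = a := by push_cast; ring
        rwa [e] at h4
      · exact hpm P hP hlP (p_mem_of_one_sub_mem w hw P h3)
    · have h1 := hdv P hlP _ h
      have h2 := P.sub_mem hm h1
      have e : (a : 𝓞 E) + b * w - ((a - b : ℤ) : 𝓞 E) = b * (1 + w) := by push_cast; ring
      rw [e] at h2
      rcases hP.mem_or_mem h2 with h3 | h3
      · refine hcop P hP ?_ h3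
        have h4 := P.add_mem h1 h3
        have e : ((a - b : ℤ) : 𝓞 E) + b = a := by push_cast; ring
        rwa [e] at h4
      · have hw2 : IsPrimitiveRoot (w ^ 2) p :=
          hw.pow_of_coprime 2 (Nat.Coprime.symm ((Nat.Prime.coprime_iff_not_dvd hpp).2 (by
            intro h
            have := Nat.le_of_dvd (by norm_num) h
            omega)))
        refine hpm P hP hlP (p_mem_of_one_sub_mem (w ^ 2) hw2 P ?_)
        have e : 1 - w ^ 2 = (1 - w) * (1 + w) := by ring
        rw [e]
        exact P.mul_mem_left _ h3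
  have main : ∀ (a' b' s : ℕ), X ^ b' * (Polynomial.C a + X * Polynomial.C b).map
      (Int.castRingHom (ZMod l)) = (-1) ^ s * X ^ a' * ((Polynomial.C a + X * Polynomial.C b).reflect
        1).map (Int.castRingHom (ZMod l)) →
      2 * (b : ZMod p) = ((1 : ℕ) + (a' : ZMod p) - b') * ((a + b : ℤ) : ZMod p) := by
    intro a' b' s h
    have h1 := key aUNITA Y919.WQ.mainLAMA hp2 l hl hlp c (Polynomial.C a + X * Polynomial.C b) 1
      (fun h => by
        have h2 : p ∣ 1 := by exact_mod_cast h
        exact hpp.one_lt.ne' (Nat.dvd_one.1 h2))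
      (by rw [f1]; exact hs) (by rw [f3]; exact lin_ne c h5 hb) (by
        intro P
        obtain ⟨m, hm⟩ := hE P
        refine ⟨m, ?_⟩
        rw [f3, hm, Int.cast_one, map_one, one_mul]) 1 a' b' s (natDegree_lin a b) h (by
        intro P hP hlP w' hw' hm
        refine hPm P hP hlP ?_
        have e : w' = (a : 𝓞 E) + b * w := by
          apply RingOfIntegers.coe_injective
          have hwz' : algebraMap (𝓞 E) E w = c.z := hwz
          rw [map_add, map_mul, map_intCast, map_intCast, hwz', ← f3]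
          exact hw'
        rwa [e] at hm) hW
    rw [f1, f2] at h1
    exact_mod_cast h1
  have hcast : ∀ n : ℤ, (l : ℤ) ∣ n → (n : ZMod l) = 0 := fun n h =>
    (ZMod.intCast_zmod_eq_zero_iff_dvd n l).2 h
  have hz : ∀ n : ℤ, (n : ZMod p) = 0 → (p : ℤ) ∣ n := fun n h =>
    (ZMod.intCast_zmod_eq_zero_iff_dvd n p).1 h
  have hmap : (Polynomial.C a + X * Polynomial.C b).map (Int.castRingHom (ZMod l)) =
      Polynomial.C (a : ZMod l) + X * Polynomial.C (b : ZMod l) := by
    simp
  have hmap2 : ((Polynomial.C a + X * Polynomial.C b).reflect 1).map (Int.castRingHom (ZMod l)) =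
      Polynomial.C (b : ZMod l) + X * Polynomial.C (a : ZMod l) := by
    rw [reflect_lin]
    simp
  rcases hlab with h | h | h | h
  · exfalso
    have h0 := hcast a h
    have h1 := main 1 0 0 (by rw [hmap, hmap2, h0]; simp)
    apply ha
    have h2 : ((2 * a : ℤ) : ZMod p) = 0 := by
      push_cast at h1 ⊢
      linear_combination -h1
    have h3 := hz _ h2
    rcases (Nat.prime_iff_prime_int.1 hpp).dvd_or_dvd h3 with h4 | h4
    · have h5' : p ∣ 2 := by exact_mod_cast h4
      have := Nat.le_of_dvd (by norm_num) h5'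
      omega
    · exact h4
  · exfalso
    have h0 := hcast b h
    have h1 := main 0 1 0 (by rw [hmap, hmap2, h0]; simp)
    apply hb
    have h2 : ((2 * b : ℤ) : ZMod p) = 0 := by
      push_cast at h1 ⊢
      linear_combination h1
    have h3 := hz _ h2
    rcases (Nat.prime_iff_prime_int.1 hpp).dvd_or_dvd h3 with h4 | h4
    · have h5' : p ∣ 2 := by exact_mod_cast h4
      have := Nat.le_of_dvd (by norm_num) h5'
      omega
    · exact h4
  · have h0 := hcast _ h
    push_cast at h0
    have h00 : (b : ZMod l) = -(a : ZMod l) := by linear_combination h0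
    have h1 := main 0 0 1 (by rw [hmap, hmap2, h00, map_neg]; ring)
    apply hz
    push_cast at h1 ⊢
    linear_combination -h1
  · have h0 := hcast _ h
    push_cast at h0
    have h00 : (b : ZMod l) = (a : ZMod l) := by linear_combination -h0
    have h1 := main 0 0 0 (by rw [hmap, hmap2, h00]; ring)
    apply hz
    push_cast at h1 ⊢
    linear_combination -h1

end

end Pool.Agent.H95C
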