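import Pool.Agent.H95C.KW

/-!
# The congruence `a ≡ b` modulo `p` for `a ^ p + b ^ p = 3 ^ e d ^ p`, `p ∤ a b d`
-/

set_option autoImplicit false
set_option linter.all false

namespace Pool.Agent.H95C

open NumberField IsDedekindDomain Pool.Agent.H47T Pool.Agent.H47C
open Pool.Agent.Y546.WQ Pool.Agent.H95F Polynomial

/-- the four conditions -/
def W4 (p : ℕ) : Prop :=
  ¬ p ^ 2 ∣ 2 ^ (p - 1) - 1 ∨ ¬ p ^ 2 ∣ 3 ^ (p - 1) - 1 ∨
    ¬ (p : ℤ) ∣ (_root_.bernoulli (p - 3)).num ∨ ((irr p).card + 1) * ((irr p).card + 2) + 3 ≤ p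

section

variable {p : ℕ} [Fact p.Prime] {E : Type} [Field E] [NumberField E]

/-- the relation from Bernoulli numbers -/
theorem kwR (c : Cyc p E) (h5 : 5 ≤ p) {a b : ℤ} (ha : ¬ (p : ℤ) ∣ a)
    (hb : ¬ (p : ℤ) ∣ b) (hs : ¬ (p : ℤ) ∣ a + b) (hE : EvL p ((a : E) + b * c.z))
    (hW : ¬ (p : ℤ) ∣ (_root_.bernoulli (p - 3)).num ∨
      ((irr p).card + 1) * ((irr p).card + 2) + 3 ≤ p) : (p : ℤ) ∣ a - b := by
  have hpp : p.Prime := Fact.out
  have hp2 : p ≠ 2 := by omega
  obtain ⟨f1, f2, f3⟩ := lin_facts c a b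
  have hp1 : ¬ (p : ℤ) ∣ 1 := fun h => by
    have h2 : p ∣ 1 := by exact_mod_cast h
    exact hpp.one_lt.ne' (Nat.dvd_one.1 h2)
  have hne : ∀ n : ℤ, ¬ (p : ℤ) ∣ n → (n : ZMod p) ≠ 0 := fun n h h0 =>
    h ((ZMod.intCast_zmod_eq_zero_iff_dvd n p).1 h0)
  have hmap : (Polynomial.C a + X * Polynomial.C b).map (Int.castRingHom (ZMod p)) =
      Polynomial.C (a : ZMod p) + X * Polynomial.C (b : ZMod p) := by
    simp
  have hrel : Rel p ((Polynomial.C a + X * Polynomial.C b).map (Int.castRingHom (ZMod p))) := by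
    intro a' ha' hap'
    have h1 : ¬ (p : ℤ) ∣ (Polynomial.C a + X * Polynomial.C b).eval 1 := by rw [f1]; exact hs
    obtain ⟨g', hg', k', hk'⟩ := relGA aUNITA hp2 a' ha' hap' c
      (Polynomial.C a + X * Polynomial.C b) 1 hp1 h1 (by rw [f3]; exact lin_ne c h5 hb) (by
        intro P
        obtain ⟨m, hm⟩ := hE P
        refine ⟨m, ?_⟩
        rw [f3, hm, Int.cast_one, map_one, one_mul])
    obtain ⟨r', hr', hdv'⟩ := Y919.WQ.mainLAMA p hp2 a' ha' hap' E c
      (Polynomial.C a + X * Polynomial.C b) 1 hp1 h1 g' hg' k' hk'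
    exact ⟨k', r', hr', hdv'⟩
  rw [hmap] at hrel
  have c0 : (Polynomial.C (a : ZMod p) + X * Polynomial.C (b : ZMod p)).coeff 0 ≠ 0 := by
    simpa using hne a ha
  have c1 : (Polynomial.C (a : ZMod p) + X * Polynomial.C (b : ZMod p)).coeff 1 ≠ 0 := by
    rw [coeff_add, coeff_C_succ, zero_add, coeff_X_mul, coeff_C_zero]
    exact hne b hb
  have c2 : (Polynomial.C (a : ZMod p) + X * Polynomial.C (b : ZMod p)).eval 1 ≠ 0 := by
    have := hne _ hs
    push_cast at this
    simpa using this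
  have hrefl : (Polynomial.C (a : ZMod p) + X * Polynomial.C (b : ZMod p)).reflect 1 =
      Polynomial.C (a : ZMod p) + X * Polynomial.C (b : ZMod p) := by
    rcases hW with h | h
    · refine (Y510.WQ.mainPOLBA Y275.WQ.mainCOREA) p 1 _ (by omega) (natDegree_lin _ _) c0 c1 c2
        hrel fun j hj h3j hj3 => ?_
      have h3 : j = 3 := by omega
      subst h3
      apply reg_of Y61.WQ.mainBER 3 hj le_rfl (by omega)
      intro hk
      unfold irr at hk
      exact h (Finset.mem_filter.1 hk).2.2.2.2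
    · refine (Y590.WQ.mainPOLE Y780.WQ.mainPOLE1 Y286.WQ.mainPOLE2) p 1 _
        ((irr p).image fun k => p - k) one_pos (natDegree_lin _ _) c0 c1 c2 hrel ?_ ?_
      · intro j hj h3j hjp hjJ
        apply reg_of Y61.WQ.mainBER j hj h3j hjp
        intro hk
        apply hjJ
        rw [Finset.mem_image]
        exact ⟨p - j, hk, by omega⟩
      · have e : ((irr p).image fun k => p - k).card ≤ (irr p).card := Finset.card_image_le
        have e2 : (((irr p).image fun k => p - k).card + 1) *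
            (((irr p).image fun k => p - k).card + 2) ≤ ((irr p).card + 1) * ((irr p).card + 2) :=
          Nat.mul_le_mul (by omega) (by omega)
        omega
  rw [reflect_lin] at hrefl
  have h1 := congrArg (fun q => q.coeff 0) hrefl
  simp at h1
  rw [← ZMod.intCast_zmod_eq_zero_iff_dvd]
  push_cast
  rw [h1]
  ring

end

/-- the congruence -/
theorem kw {p : ℕ} [Fact p.Prime] (h5 : 5 ≤ p) (hW : W4 p) {a b d : ℤ} (e : ℕ)
    (hab : IsCoprime a b) (ha : ¬ (p : ℤ) ∣ a) (hb : ¬ (p : ℤ) ∣ b)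
    (heq : a ^ p + b ^ p = 3 ^ e * d ^ p) (hpd : ¬ (p : ℤ) ∣ d) : (p : ℤ) ∣ a - b := by
  have hpp : p.Prime := Fact.out
  have hpZ := Nat.prime_iff_prime_int.1 hpp
  have hp2 : p ≠ 2 := by omega
  have hodd : Odd p := hpp.odd_of_ne_two hp2
  have hd0 : d ≠ 0 := fun h => hpd (h ▸ dvd_zero _)
  have hs : ¬ (p : ℤ) ∣ a + b := by
    intro h
    have h1 : (p : ℤ) ∣ a ^ p + b ^ p := h.trans (Odd.add_dvd_pow_add_pow a b hodd)
    rw [heq] at h1
    rcases hpZ.dvd_or_dvd h1 with h2 | h2
    · have h3 : p ∣ 3 := by exact_mod_cast hpZ.dvd_of_dvd_pow h2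
      have := Nat.le_of_dvd (by norm_num) h3
      omega
    · exact hpd (hpZ.dvd_of_dvd_pow h2)
  obtain ⟨E, _, _, ⟨c⟩⟩ := Y978.WQ.main p hp2
  have hE : EvL p ((a : E) + b * c.z) := valqG h5 c.prim e hd0 hab heq hpd
  rcases hW with h | h | h
  · refine kwL c h5 hab ha hb hs hE Nat.prime_two (by omega) h ?_
    push_cast
    omega
  · refine kwL c h5 hab ha hb hs hE Nat.prime_three (by omega) h ?_
    push_cast
    have ha3 : a % 3 = 0 ∨ a % 3 = 1 ∨ a % 3 = 2 := by omega
    have hb3 : b % 3 = 0 ∨ b % 3 = 1 ∨ b % 3 = 2 := by omega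
    rcases ha3 with h1 | h1 | h1
    · left
      omega
    · rcases hb3 with h2 | h2 | h2
      · right
        left
        omega
      · right
        right
        right
        omega
      · right
        right
        left
        omega
    · rcases hb3 with h2 | h2 | h2
      · right
        left
        omega
      · right
        right
        left
        omega
      · right
        right
        right
        omega
  · exact kwR c h5 ha hb hs hE h

/-- the first case of Fermat's Last Theorem for the field of rational numbers -/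
theorem flt1 {p : ℕ} [Fact p.Prime] (h5 : 5 ≤ p) (hW : W4 p) {a b d : ℤ}
    (hab : IsCoprime a b) (ha : ¬ (p : ℤ) ∣ a) (hb : ¬ (p : ℤ) ∣ b)
    (heq : a ^ p + b ^ p = d ^ p) (hpd : ¬ (p : ℤ) ∣ d) : False := by
  have hpp : p.Prime := Fact.out
  have hpZ := Nat.prime_iff_prime_int.1 hpp
  have hodd : Odd p := hpp.odd_of_ne_two (by omega)
  have h1 := kw h5 hW 0 hab ha hb (d := d) (by rw [pow_zero, one_mul]; exact heq) hpd
  -- `d ^ p + (-a) ^ p = b ^ p`
  have hda : IsCoprime d (-a) := by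
    have h2 : IsCoprime (a ^ p) (b ^ p) := hab.pow
    have h3 : IsCoprime (a ^ p) (d ^ p) := by
      rw [← heq]
      have : IsCoprime (a ^ p) (b ^ p + a ^ p * 1) := (IsCoprime.add_mul_left_right_iff).2 h2
      rwa [mul_one, add_comm] at this
    have h4 : IsCoprime a d := (IsCoprime.pow_iff hpp.pos hpp.pos).1 h3
    exact h4.symm.neg_right
  have h2 := kw h5 hW 0 hda hpd (fun h => ha ((dvd_neg).1 h)) (d := b)
    (by rw [pow_zero, one_mul, hodd.neg_pow]; linarith) hb
  have h3 : (p : ℤ) ∣ a + b - d := by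
    rw [← ZMod.intCast_zmod_eq_zero_iff_dvd]
    have h4 := congrArg (fun z : ℤ => (z : ZMod p)) heq
    push_cast at h4 ⊢
    simp only [ZMod.pow_card] at h4
    rw [h4, sub_self]
  have h4 : (p : ℤ) ∣ 3 * a := by
    have e : 3 * a = (a + b - d) + (a - b) + (d - -a) := by ring
    rw [e]
    exact dvd_add (dvd_add h3 h1) h2
  rcases hpZ.dvd_or_dvd h4 with h5' | h5'
  · have h3 : p ∣ 3 := by exact_mod_cast h5'
    have := Nat.le_of_dvd (by norm_num) h3
    omega
  · exact ha h5'

end Pool.Agent.H95C
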